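import Pool.Agent.Q278.Del4

set_option autoImplicit false

/-!
# Alternating sums of fourth powers of Delannoy polynomials modulo `p³`
-/

namespace Pool.Agent.Results.MP_c45f9b_nt.Full

open Finset

/-- The Delannoy polynomial `D_n(x) = ∑_k C(n,k) C(n+k,k) x^k` at an integer `x`. -/
def D (n : ℕ) (x : ℤ) : ℤ :=
  ∑ k ∈ range (n + 1), (n.choose k : ℤ) * ((n + k).choose k : ℤ) * x ^ k

/-- `S_p(x) = ∑_{k=0}^{p-1} (-1)^k (2k+1) D_k(x)^4`. -/
def S (p : ℕ) (x : ℤ) : ℤ := ∑ k ∈ range p, (-1 : ℤ) ^ k * (2 * k + 1) * D k x ^ 4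

/-- `T_p(x) = ∑_{k=0}^{(p-1)/2} (-1)^k C(2k,k)^2 (x^2+x)^k (2x+1)^(2k)`. -/
def T (p : ℕ) (x : ℤ) : ℤ := ∑ k ∈ range ((p - 1) / 2 + 1),
  (-1 : ℤ) ^ k * ((2 * k).choose k : ℤ) ^ 2 * (x ^ 2 + x) ^ k * (2 * x + 1) ^ (2 * k)

open Polynomial in
theorem T_cong {p : ℕ} (hp : p.Prime) (hp2 : p ≠ 2) (x : ℤ) : ((p : ℤ) ^ 2) ∣
    T p x - ∑ n ∈ range p, (x ^ 2 + x) ^ n * ((-1) ^ n * Q278.Land.a n) := by
  have hodd : p % 2 = 1 := hp.odd_of_ne_two hp2 |> Nat.odd_iff.1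
  set h := (p - 1) / 2 with hh
  have hph : p = 2 * h + 1 := by omega
  have h1 : T p x = (Q278.Land.P (h + 1)).eval (x ^ 2 + x) := by
    unfold T Q278.Land.P
    rw [eval_finsetSum]
    apply sum_congr rfl
    intro k _
    unfold Q278.Land.u
    rw [eval_mul, eval_C, eval_pow, eval_neg, eval_mul, eval_add, eval_mul, eval_X, eval_one]
    rw [show eval (x ^ 2 + x) (4 : ℤ[X]) = 4 from by simp]
    rw [show -((x ^ 2 + x) * (1 + 4 * (x ^ 2 + x))) = (-1) * (x ^ 2 + x) * (2 * x + 1) ^ 2 by ring,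
      mul_pow, mul_pow, ← pow_mul]
    ring
  have hdeg : (Q278.Land.P (h + 1)).natDegree < p := by
    rw [hph]
    apply Nat.lt_succ_of_le
    unfold Q278.Land.P
    apply natDegree_sum_le_of_forall_le
    intro k hk
    have hk' := mem_range.1 hk
    refine (natDegree_C_mul_le _ _).trans ((natDegree_pow_le).trans ?_)
    have h2 : (Q278.Land.u).natDegree ≤ 2 := by
      unfold Q278.Land.u
      rw [natDegree_neg]
      refine (natDegree_mul_le).trans ?_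
      have h3 : (1 + 4 * X : ℤ[X]).natDegree ≤ 1 := by
        rw [show (1 + 4 * X : ℤ[X]) = C 4 * X + C 1 by
          rw [show (C 4 : ℤ[X]) = 4 from rfl, C_1]; ring]
        exact natDegree_linear_le
      have h4 : (X : ℤ[X]).natDegree ≤ 1 := natDegree_X_le
      omega
    calc k * (Q278.Land.u).natDegree ≤ h * 2 := Nat.mul_le_mul (by omega) h2
      _ = 2 * h := by ring
  rw [h1, eval_eq_sum_range' hdeg, ← sum_sub_distrib]
  apply dvd_sum
  intro n hn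
  have hn' := mem_range.1 hn
  rw [← Q278.Land.P_coeff hn', mul_comm, ← mul_sub]
  apply Dvd.dvd.mul_left
  have h5 : (Q278.Land.P (h + 1)).coeff n - (Q278.Land.P p).coeff n =
      -∑ k ∈ Ico (h + 1) p, ((2 * k).choose k : ℤ) ^ 2 * ((Q278.Land.u) ^ k).coeff n := by
    unfold Q278.Land.P
    rw [finsetSum_coeff, finsetSum_coeff, ← sum_range_add_sum_Ico _ (show h + 1 ≤ p by omega)]
    simp only [coeff_C_mul]
    ring
  rw [h5]
  rw [dvd_neg]
  apply dvd_sum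
  intro k hk
  have hk' := mem_Ico.1 hk
  exact (pow_dvd_pow_of_dvd (Q278.Del4.cb_dvd hp (by omega) hk'.2) 2).mul_right _

/-- **Theorem.** For every integer `x` and every odd prime `p`, `S_p(x) ≡ p T_p(x)` modulo `p³`. -/
theorem result (x : ℤ) (p : ℕ) (hp : p.Prime) (hp2 : p ≠ 2) :
    S p x ≡ p * T p x [ZMOD (p : ℤ) ^ 3] := by
  have h1 := Q278.Del4.S_cong hp hp2 x
  have h2 := T_cong hp hp2 x
  have h3 : ∑ k ∈ range p, (-1 : ℤ) ^ k * (2 * k + 1) * Q278.Del4.D k x ^ 4 = S p x := rfl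
  rw [h3] at h1
  apply Int.ModEq.symm
  rw [Int.modEq_iff_dvd]
  obtain ⟨y, hy⟩ := h1
  obtain ⟨w, hw⟩ := h2
  refine ⟨y - w, ?_⟩
  linear_combination hy - (p : ℤ) * hw

end Pool.Agent.Results.MP_c45f9b_nt.Full
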